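import Mathlib

/-!
# `ℓ^∞` has no equivalent locally uniformly convex norm
-/

open Filter Topology
open scoped ENNReal

namespace Pool.Agent.U565.LUR.Ell

variable {𝕜 : Type} [RCLike 𝕜]

/-- bounded sequences -/
abbrev Linf (𝕜 : Type) [RCLike 𝕜] : Type := lp (fun _ : ℕ => 𝕜) ∞

open Classical in
/-- `y` with the coordinates in `B` replaced by zero -/
noncomputable def zeroOn (B : Set ℕ) (y : (Linf 𝕜)) : (Linf 𝕜) :=
  ⟨fun n => if n ∈ B then 0 else y n, by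
    refine memℓp_infty ⟨‖y‖, ?_⟩
    rintro _ ⟨n, rfl⟩
    dsimp only
    split_ifs
    · simp
    · exact lp.norm_apply_le_norm (by simp) y n⟩

open Classical in
theorem zeroOn_apply (B : Set ℕ) (y : (Linf 𝕜)) (n : ℕ) :
    (zeroOn B y : ℕ → 𝕜) n = if n ∈ B then 0 else y n := rfl

theorem norm_le_iff (y : (Linf 𝕜)) {C : ℝ} (hC : 0 ≤ C) : ‖y‖ ≤ C ↔ ∀ n, ‖y n‖ ≤ C :=
  ⟨fun h n => (lp.norm_apply_le_norm (by simp) y n).trans h, fun h => lp.norm_le_of_forall_le hC h⟩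

/-- pieces of an infinite set -/
theorem pieces (A : Set ℕ) (hA : A.Infinite) (J : ℕ) (hJ : 0 < J) :
    ∃ B : Fin J → Set ℕ, (∀ j, B j ⊆ A) ∧ (∀ j, (B j).Infinite) ∧
      ∀ n i j, n ∈ B i → n ∈ B j → i = j := by
  set e := hA.natEmbedding with he
  refine ⟨fun j => {n | ∃ k : ℕ, k % J = j ∧ ((e k : A) : ℕ) = n}, ?_, ?_, ?_⟩
  · rintro j n ⟨k, _, rfl⟩
    exact (e k).2
  · intro j
    have hinj : Function.Injective (fun k : ℕ => ((e (k * J + j) : A) : ℕ)) := by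
      intro a b hab
      have h1 := e.injective (Subtype.ext hab)
      have h2 : a * J = b * J := by omega
      exact Nat.eq_of_mul_eq_mul_right hJ h2
    refine (Set.infinite_range_of_injective hinj).mono ?_
    rintro _ ⟨k, rfl⟩
    refine ⟨k * J + j, ?_, rfl⟩
    rw [add_comm, Nat.add_mul_mod_self_right, Nat.mod_eq_of_lt j.2]
  · rintro n i j ⟨k, hk, hkn⟩ ⟨l, hl, hln⟩
    have h1 : k = l := e.injective (Subtype.ext (hkn.trans hln.symm))
    subst h1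
    exact Fin.ext (hk.symm.trans hl)

/-- zeroing on one of many disjoint sets does not decrease the norm much -/
theorem exists_zeroOn (p : Seminorm 𝕜 (Linf 𝕜)) {C : ℝ} (hC : 0 < C)
    (hp : ∀ x, p x ≤ C * ‖x‖) (y : (Linf 𝕜)) (hy : ‖y‖ ≤ 1) {ε : ℝ} (hε : 0 < ε) (A : Set ℕ)
    (hA : A.Infinite) :
    ∃ B : Set ℕ, B ⊆ A ∧ B.Infinite ∧ p y - ε ≤ p (zeroOn B y) := by
  classical
  obtain ⟨J, hJ⟩ := exists_nat_gt (C / ε)
  have hJ0 : (0 : ℝ) < J := lt_trans (by positivity) hJ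
  have hJ1 : 0 < J := by exact_mod_cast hJ0
  obtain ⟨B, hBA, hBi, hBd⟩ := pieces A hA J hJ1
  by_contra hcon
  push Not at hcon
  have h1 : ∀ j, p (zeroOn (B j) y) < p y - ε := fun j => hcon (B j) (hBA j) (hBi j)
  -- the sum of the differences is bounded
  have h2 : ‖∑ j : Fin J, (y - zeroOn (B j) y)‖ ≤ 1 := by
    rw [norm_le_iff _ zero_le_one]
    intro n
    have h3 : (∑ j : Fin J, (y - zeroOn (B j) y) : (Linf 𝕜)) n =
        ∑ j : Fin J, (if n ∈ B j then y n else 0) := by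
      rw [lp.coeFn_sum, Finset.sum_apply]
      refine Finset.sum_congr rfl fun j _ => ?_
      rw [lp.coeFn_sub, Pi.sub_apply, zeroOn_apply]
      split_ifs <;> simp
    rw [h3]
    by_cases hn : ∃ j, n ∈ B j
    · obtain ⟨j, hj⟩ := hn
      rw [Finset.sum_eq_single j]
      · rw [if_pos hj]
        exact (lp.norm_apply_le_norm (by simp) y n).trans hy
      · intro i _ hij
        rw [if_neg]
        intro hi
        exact hij (hBd n i j hi hj)
      · simp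
    · push Not at hn
      rw [Finset.sum_eq_zero]
      · simp
      · intro j _
        rw [if_neg (hn j)]
  have h4 : (J : 𝕜) • y = ∑ j : Fin J, zeroOn (B j) y + ∑ j : Fin J, (y - zeroOn (B j) y) := by
    rw [← Finset.sum_add_distrib]
    have h41 : ∀ j : Fin J, zeroOn (B j) y + (y - zeroOn (B j) y) = y := fun j => by abel
    rw [Finset.sum_congr rfl fun j _ => h41 j, Finset.sum_const, Finset.card_univ,
      Fintype.card_fin, Nat.cast_smul_eq_nsmul]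
  have h5 : (J : ℝ) * p y ≤ J * (p y - ε) + C := by
    calc (J : ℝ) * p y = p ((J : 𝕜) • y) := by rw [map_smul_eq_mul]; simp
      _ ≤ p (∑ j : Fin J, zeroOn (B j) y) + p (∑ j : Fin J, (y - zeroOn (B j) y)) := by
          rw [h4]; exact map_add_le_add p _ _
      _ ≤ J * (p y - ε) + C := by
          apply add_le_add
          · refine (Finset.le_sum_of_subadditive p (map_zero p).le (map_add_le_add p)
              Finset.univ _).trans ?_
            refine (Finset.sum_le_card_nsmul _ _ (p y - ε) fun j _ => (h1 j).le).trans ?_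
            rw [Finset.card_univ, Fintype.card_fin, nsmul_eq_mul]
          · exact (hp _).trans (by nlinarith)
  have h6 : C < J * ε := by rwa [div_lt_iff₀ hε] at hJ
  nlinarith

/-- vectors of the unit ball which agree with `x` off `A` -/
def F (x : (Linf 𝕜)) (A : Set ℕ) : Set (Linf 𝕜) := {y | ‖y‖ ≤ 1 ∧ ∀ n, n ∉ A → y n = x n}

theorem step (p : Seminorm 𝕜 (Linf 𝕜)) {C : ℝ} (hC : 0 < C) (hp : ∀ x, p x ≤ C * ‖x‖)
    (x : (Linf 𝕜)) (A : Set ℕ) (hx : ‖x‖ ≤ 1) (hA : A.Infinite) {ε : ℝ} (hε : 0 < ε) :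
    ∃ (x' : (Linf 𝕜)) (A' : Set ℕ), A' ⊆ A ∧ A'.Infinite ∧ ‖x'‖ ≤ 1 ∧ (∀ n ∈ A', x' n = 0) ∧
      (∀ n, n ∉ A → x' n = x n) ∧ ∀ y ∈ F x' A', p y ≤ p x' + ε := by
  have hne : (p '' F x A).Nonempty := ⟨p x, x, ⟨hx, fun _ _ => rfl⟩, rfl⟩
  have hbdd : BddAbove (p '' F x A) := by
    refine ⟨C, ?_⟩
    rintro _ ⟨y, hy, rfl⟩
    refine (hp y).trans ?_
    have := hy.1
    nlinarith
  obtain ⟨_, ⟨y, hy, rfl⟩, hy1⟩ := exists_lt_of_lt_csSup hne
    (show sSup (p '' F x A) - ε / 2 < sSup (p '' F x A) by linarith)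
  obtain ⟨B, hBA, hBi, hB⟩ := exists_zeroOn p hC hp y hy.1 (half_pos hε) A hA
  have hn : ‖zeroOn B y‖ ≤ 1 := by
    rw [norm_le_iff _ zero_le_one]
    intro n
    rw [zeroOn_apply]
    split_ifs
    · simp
    · exact (lp.norm_apply_le_norm (by simp) y n).trans hy.1
  refine ⟨zeroOn B y, B, hBA, hBi, hn, ?_, ?_, ?_⟩
  · intro n hn
    rw [zeroOn_apply, if_pos hn]
  · intro n hn
    rw [zeroOn_apply, if_neg (fun h => hn (hBA h))]
    exact hy.2 n hn
  · intro y' hy'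
    have h1 : y' ∈ F x A := by
      refine ⟨hy'.1, fun n hn => ?_⟩
      have h2 : n ∉ B := fun h => hn (hBA h)
      rw [hy'.2 n h2, zeroOn_apply, if_neg h2]
      exact hy.2 n hn
    have h3 : p y' ≤ sSup (p '' F x A) := le_csSup hbdd ⟨y', h1, rfl⟩
    linarith

theorem two_sided (p : Seminorm 𝕜 (Linf 𝕜)) (x : (Linf 𝕜)) (A : Set ℕ) (hx : ‖x‖ ≤ 1)
    (hx0 : ∀ n ∈ A, x n = 0) {ε : ℝ} (h : ∀ y ∈ F x A, p y ≤ p x + ε) (y : (Linf 𝕜)) (hy : y ∈ F x A) :
    |p y - p x| ≤ ε := by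
  have h1 : (2 : 𝕜) • x - y ∈ F x A := by
    refine ⟨?_, ?_⟩
    · rw [norm_le_iff _ zero_le_one]
      intro n
      rw [lp.coeFn_sub, Pi.sub_apply, lp.coeFn_smul, Pi.smul_apply]
      by_cases hn : n ∈ A
      · rw [hx0 n hn, smul_zero, zero_sub, norm_neg]
        exact (lp.norm_apply_le_norm (by simp) y n).trans hy.1
      · rw [hy.2 n hn, smul_eq_mul, show (2 : 𝕜) * x n - x n = x n by ring]
        exact (lp.norm_apply_le_norm (by simp) x n).trans hx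
    · intro n hn
      rw [lp.coeFn_sub, Pi.sub_apply, lp.coeFn_smul, Pi.smul_apply, hy.2 n hn, smul_eq_mul]
      ring
  have h2 := h y hy
  have h3 := h _ h1
  have h4 : 2 * p x ≤ p y + p ((2 : 𝕜) • x - y) := by
    calc 2 * p x = p ((2 : 𝕜) • x) := by rw [map_smul_eq_mul]; simp
      _ = p (y + ((2 : 𝕜) • x - y)) := by congr 1; abel
      _ ≤ _ := map_add_le_add p _ _
  rw [abs_le]
  constructor <;> linarith

theorem sequence (p : Seminorm 𝕜 (Linf 𝕜)) {C : ℝ} (hC : 0 < C) (hp : ∀ x, p x ≤ C * ‖x‖) :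
    ∃ (x : ℕ → (Linf 𝕜)) (A : ℕ → Set ℕ), (∀ k, A (k + 1) ⊆ A k) ∧ (∀ k, (A k).Infinite) ∧
      (∀ k, ‖x k‖ ≤ 1) ∧ (∀ k, ∀ n ∈ A k, x k n = 0) ∧ (∀ k n, n ∉ A k → x (k + 1) n = x k n) ∧
      (0 ∉ A 0) ∧ (x 0 0 = 1) ∧
      ∀ k, ∀ y ∈ F (x (k + 1)) (A (k + 1)), p y ≤ p (x (k + 1)) + (1 / 2) ^ k := by
  classical
  let S := {s : (Linf 𝕜) × Set ℕ // ‖s.1‖ ≤ 1 ∧ s.2.Infinite ∧ ∀ n ∈ s.2, s.1 n = 0}
  have hstep : ∀ (k : ℕ) (s : S), ∃ s' : S, s'.1.2 ⊆ s.1.2 ∧ (∀ n, n ∉ s.1.2 → s'.1.1 n = s.1.1 n) ∧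
      ∀ y ∈ F s'.1.1 s'.1.2, p y ≤ p s'.1.1 + (1 / 2) ^ k := by
    rintro k ⟨⟨x, A⟩, h1, h2, h3⟩
    obtain ⟨x', A', g1, g2, g3, g4, g5, g6⟩ := step p hC hp x A h1 h2
      (show (0 : ℝ) < (1 / 2) ^ k by positivity)
    exact ⟨⟨⟨x', A'⟩, g3, g2, g4⟩, g1, g5, g6⟩
  choose f hf1 hf2 hf3 using hstep
  have h0 : ‖(lp.single ∞ 0 (1 : 𝕜) : (Linf 𝕜))‖ ≤ 1 := by
    rw [norm_le_iff _ zero_le_one]
    intro n
    rw [lp.single_apply, Pi.single_apply]
    split_ifs <;> simp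
  let s0 : S := ⟨⟨lp.single ∞ 0 (1 : 𝕜), {n | 1 ≤ n}⟩, h0, Set.infinite_of_not_bddAbove (by
    rintro ⟨b, hb⟩
    have := hb (show b + 1 ∈ {n | 1 ≤ n} by simp)
    omega), by
    intro n hn
    have hn' : n ≠ 0 := by
      have : 1 ≤ n := hn
      omega
    simp [lp.single_apply, hn']⟩
  let s : ℕ → S := fun n => Nat.rec s0 (fun k t => f k t) n
  have hs0 : s 0 = s0 := rfl
  have hs : ∀ k, s (k + 1) = f k (s k) := fun k => rfl
  refine ⟨fun k => (s k).1.1, fun k => (s k).1.2, fun k => ?_, fun k => (s k).2.2.1,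
    fun k => (s k).2.1, fun k => (s k).2.2.2, fun k => ?_, ?_, ?_, fun k => ?_⟩
  · simp only [hs]
    exact hf1 k (s k)
  · simp only [hs]
    exact hf2 k (s k)
  · simp only [hs0, s0]
    simp
  · simp only [hs0, s0]
    simp [lp.single_apply]
  · simp only [hs]
    exact hf3 k (s k)

theorem exists_limit (x : ℕ → (Linf 𝕜)) (A : ℕ → Set ℕ) (hA : ∀ k, A (k + 1) ⊆ A k)
    (hx : ∀ k, ‖x k‖ ≤ 1) (hxA : ∀ k n, n ∉ A k → x (k + 1) n = x k n) :
    ∃ z : (Linf 𝕜), ‖z‖ ≤ 1 ∧ ∀ k n, n ∉ A k → z n = x k n := by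
  classical
  let g : ℕ → 𝕜 := fun n => if h : ∃ k, n ∉ A k then x (Nat.find h) n else 0
  have hg1 : ∀ n, ‖g n‖ ≤ 1 := by
    intro n
    simp only [g]
    split_ifs with h
    · exact (lp.norm_apply_le_norm (by simp) _ n).trans (hx _)
    · simp
  have hg : Memℓp g ∞ := memℓp_infty ⟨1, by rintro _ ⟨n, rfl⟩; exact hg1 n⟩
  refine ⟨⟨g, hg⟩, (norm_le_iff _ zero_le_one).2 hg1, ?_⟩
  intro k n hn
  have h : ∃ k, n ∉ A k := ⟨k, hn⟩
  have h1 : Nat.find h ≤ k := Nat.find_min' h hn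
  have h2 : n ∉ A (Nat.find h) := Nat.find_spec h
  have hnot : ∀ j, Nat.find h ≤ j → n ∉ A j := by
    intro j hj
    induction j, hj using Nat.le_induction with
    | base => exact h2
    | succ j hj ih => exact fun hh => ih (hA j hh)
  have h3 : ∀ j, Nat.find h ≤ j → x j n = x (Nat.find h) n := by
    intro j hj
    induction j, hj using Nat.le_induction with
    | base => rfl
    | succ j hj ih => rw [hxA j n (hnot j hj), ih]
  change g n = x k n
  simp only [g]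
  rw [dif_pos h, h3 k h1]

open Classical in
/-- `x` with the coordinate `a` replaced by `t` -/
noncomputable def change (x : (Linf 𝕜)) (a : ℕ) (t : 𝕜) : (Linf 𝕜) :=
  ⟨fun n => if n = a then t else x n, by
    refine memℓp_infty ⟨max ‖x‖ ‖t‖, ?_⟩
    rintro _ ⟨n, rfl⟩
    dsimp only
    split_ifs
    · exact le_max_right _ _
    · exact (lp.norm_apply_le_norm (by simp) x n).trans (le_max_left _ _)⟩

open Classical in
theorem change_apply (x : (Linf 𝕜)) (a : ℕ) (t : 𝕜) (n : ℕ) :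
    (change x a t : ℕ → 𝕜) n = if n = a then t else x n := rfl

theorem exists_far (t : 𝕜) : ∃ s : 𝕜, ‖s‖ ≤ 1 ∧ 1 ≤ ‖s - t‖ := by
  by_cases h : RCLike.re t ≤ 0
  · refine ⟨1, by simp, ?_⟩
    have h1 : RCLike.re (1 - t) ≤ ‖1 - t‖ := RCLike.re_le_norm _
    have h2 : RCLike.re (1 - t) = 1 - RCLike.re t := by simp
    linarith
  · refine ⟨-1, by simp, ?_⟩
    have h1 : RCLike.re (-(-1 - t)) ≤ ‖-(-1 - t)‖ := RCLike.re_le_norm _
    have h2 : RCLike.re (-(-1 - t)) = 1 + RCLike.re t := by simp; ring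
    rw [norm_neg] at h1
    push Not at h
    linarith

/-- the main point: a vector `x` and vectors `z k` far from `x` such that
`p (z k) → p x` and `p (z k + x) → 2 p x` -/
theorem main (p : Seminorm 𝕜 (Linf 𝕜)) {c C : ℝ} (hc : 0 < c) (hC : 0 < C)
    (hp1 : ∀ x, c * ‖x‖ ≤ p x) (hp : ∀ x, p x ≤ C * ‖x‖) :
    ∃ (x : (Linf 𝕜)) (z : ℕ → (Linf 𝕜)), 0 < p x ∧ (∀ k, c ≤ p (z k - x)) ∧
      Tendsto (fun k => p (z k)) atTop (𝓝 (p x)) ∧
      Tendsto (fun k => p (z k + x)) atTop (𝓝 (2 * p x)) := by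
  obtain ⟨x, A, hA, hAi, hx, hx0, hxA, h0, h00, hF⟩ := sequence p hC hp
  obtain ⟨z, hz, hzx⟩ := exists_limit x A hA hx hxA
  have hz0 : z 0 = 1 := by rw [hzx 0 0 h0, h00]
  have hznorm : 1 ≤ ‖z‖ := by
    have := lp.norm_apply_le_norm (p := ∞) (by simp) z 0
    rw [hz0] at this
    simpa using this
  have hpz : 0 < p z := by
    have := hp1 z
    nlinarith
  choose a ha using fun k => (hAi (k + 1)).nonempty
  choose s hs1 hs2 using fun t : 𝕜 => exists_far t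
  let y : ℕ → (Linf 𝕜) := fun k => change z (a k) (s (z (a k)))
  have hyF : ∀ k, y k ∈ F (x (k + 1)) (A (k + 1)) := by
    intro k
    refine ⟨?_, ?_⟩
    · rw [norm_le_iff _ zero_le_one]
      intro n
      simp only [y]
      rw [change_apply]
      split_ifs
      · exact hs1 _
      · exact (lp.norm_apply_le_norm (by simp) z n).trans hz
    · intro n hn
      have hna : n ≠ a k := by
        rintro rfl
        exact hn (ha k)
      simp only [y]
      rw [change_apply, if_neg hna]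
      exact hzx _ n hn
  have hzF : ∀ k, z ∈ F (x k) (A k) := fun k => ⟨hz, fun n hn => hzx k n hn⟩
  have hmF : ∀ k, (2⁻¹ : 𝕜) • (y k + z) ∈ F (x (k + 1)) (A (k + 1)) := by
    intro k
    refine ⟨?_, ?_⟩
    · rw [norm_smul, norm_inv, RCLike.norm_ofNat]
      have := norm_add_le (y k) z
      have := (hyF k).1
      nlinarith
    · intro n hn
      rw [lp.coeFn_smul, Pi.smul_apply, lp.coeFn_add, Pi.add_apply, (hyF k).2 n hn,
        (hzF (k + 1)).2 n hn, smul_eq_mul]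
      ring
  have key : ∀ k, ∀ v ∈ F (x (k + 1)) (A (k + 1)), |p v - p (x (k + 1))| ≤ (1 / 2) ^ k := fun k =>
    two_sided p (x (k + 1)) (A (k + 1)) (hx _) (hx0 _) (hF k)
  have hlim : Tendsto (fun k : ℕ => 2 * ((1 : ℝ) / 2) ^ k) atTop (𝓝 0) := by
    have := (tendsto_pow_atTop_nhds_zero_of_lt_one (r := (1 : ℝ) / 2) (by norm_num)
      (by norm_num)).const_mul 2
    simpa using this
  have hlim4 : Tendsto (fun k : ℕ => 4 * ((1 : ℝ) / 2) ^ k) atTop (𝓝 0) := by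
    have := (tendsto_pow_atTop_nhds_zero_of_lt_one (r := (1 : ℝ) / 2) (by norm_num)
      (by norm_num)).const_mul 4
    simpa using this
  refine ⟨z, y, hpz, ?_, ?_, ?_⟩
  · intro k
    have h1 : 1 ≤ ‖y k - z‖ := by
      refine le_trans ?_ (lp.norm_apply_le_norm (by simp) (y k - z) (a k))
      rw [lp.coeFn_sub, Pi.sub_apply]
      simp only [y]
      rw [change_apply, if_pos rfl]
      exact hs2 _
    have := hp1 (y k - z)
    nlinarith
  · rw [tendsto_iff_norm_sub_tendsto_zero]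
    refine squeeze_zero (fun _ => norm_nonneg _) (fun k => ?_) hlim
    rw [Real.norm_eq_abs]
    have h1 := abs_le.1 (key k _ (hyF k))
    have h2 := abs_le.1 (key k _ (hzF (k + 1)))
    rw [abs_le]
    constructor <;> linarith [h1.1, h1.2, h2.1, h2.2]
  · rw [tendsto_iff_norm_sub_tendsto_zero]
    refine squeeze_zero (fun _ => norm_nonneg _) (fun k => ?_) hlim4
    rw [Real.norm_eq_abs]
    have h1 := abs_le.1 (key k _ (hmF k))
    have h2 := abs_le.1 (key k _ (hzF (k + 1)))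
    have h3 : p ((2⁻¹ : 𝕜) • (y k + z)) = 2⁻¹ * p (y k + z) := by
      rw [map_smul_eq_mul, norm_inv, RCLike.norm_ofNat]
    rw [h3] at h1
    rw [abs_le]
    constructor <;> linarith [h1.1, h1.2, h2.1, h2.2]

/-- normalisation: failure of local uniform convexity -/
theorem not_lur {E : Type} [NormedAddCommGroup E] [NormedSpace 𝕜 E] (p : Seminorm 𝕜 E)
    {c : ℝ} (hc : 0 < c) (x : E) (z : ℕ → E) (hx : 0 < p x) (hz : ∀ k, c ≤ p (z k - x))
    (h1 : Tendsto (fun k => p (z k)) atTop (𝓝 (p x)))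
    (h2 : Tendsto (fun k => p (z k + x)) atTop (𝓝 (2 * p x)))
    (hlur : ∀ (x : E) (y : ℕ → E), p x = 1 → (∀ n, p (y n) = 1) →
      Tendsto (fun n => p (y n + x)) atTop (𝓝 2) → Tendsto (fun n => p (y n - x)) atTop (𝓝 0)) :
    False := by
  obtain ⟨K, hK⟩ := eventually_atTop.1 (h1.eventually (lt_mem_nhds hx))
  set w : ℕ → E := fun k => z (k + K) with hw
  have hwpos : ∀ k, 0 < p (w k) := fun k => hK _ (by omega)
  have h1' : Tendsto (fun k => p (w k)) atTop (𝓝 (p x)) :=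
    (tendsto_add_atTop_iff_nat (f := fun k => p (z k)) K).2 h1
  have h2' : Tendsto (fun k => p (w k + x)) atTop (𝓝 (2 * p x)) :=
    (tendsto_add_atTop_iff_nat (f := fun k => p (z k + x)) K).2 h2
  set r : ℝ := (p x)⁻¹ with hr
  have hrpos : 0 < r := inv_pos.2 hx
  have hx1 : r * p x = 1 := inv_mul_cancel₀ hx.ne'
  have hsm : ∀ (a : ℝ) (v : E), 0 ≤ a → p ((a : 𝕜) • v) = a * p v := by
    intro a v ha
    rw [map_smul_eq_mul, RCLike.norm_ofReal, abs_of_nonneg ha]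
  -- error term
  have herr : Tendsto (fun k => |1 - r * p (w k)|) atTop (𝓝 0) := by
    have h3 : Tendsto (fun k => 1 - r * p (w k)) atTop (𝓝 (1 - r * p x)) :=
      (h1'.const_mul r).const_sub 1
    rw [hx1, sub_self] at h3
    simpa using h3.abs
  have hdiff : ∀ k, p ((((p (w k))⁻¹ : ℝ) : 𝕜) • w k - (r : 𝕜) • w k) = |1 - r * p (w k)| := by
    intro k
    rw [← sub_smul, ← RCLike.ofReal_sub, map_smul_eq_mul, RCLike.norm_ofReal]
    rw [← abs_of_pos (hwpos k), ← abs_mul, sub_mul, abs_of_pos (hwpos k),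
      inv_mul_cancel₀ (hwpos k).ne']
  have hA : ∀ k, p ((((p (w k))⁻¹ : ℝ) : 𝕜) • w k) = 1 := by
    intro k
    rw [hsm _ _ (inv_pos.2 (hwpos k)).le, inv_mul_cancel₀ (hwpos k).ne']
  have hB : p ((r : 𝕜) • x) = 1 := by rw [hsm _ _ hrpos.le, hx1]
  have hlim := hlur ((r : 𝕜) • x) (fun k => (((p (w k))⁻¹ : ℝ) : 𝕜) • w k) hB hA (by
    have hlow : ∀ k, r * p (w k + x) - |1 - r * p (w k)| ≤
        p ((((p (w k))⁻¹ : ℝ) : 𝕜) • w k + (r : 𝕜) • x) := by
      intro k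
      have h5 : p ((r : 𝕜) • (w k + x)) ≤ p ((((p (w k))⁻¹ : ℝ) : 𝕜) • w k + (r : 𝕜) • x) +
          p ((((p (w k))⁻¹ : ℝ) : 𝕜) • w k - (r : 𝕜) • w k) := by
        have h6 : (r : 𝕜) • (w k + x) = ((((p (w k))⁻¹ : ℝ) : 𝕜) • w k + (r : 𝕜) • x) -
            ((((p (w k))⁻¹ : ℝ) : 𝕜) • w k - (r : 𝕜) • w k) := by
          rw [smul_add]; abel
        rw [h6]
        exact map_sub_le_add p _ _
      rw [hsm _ _ hrpos.le, hdiff] at h5
      linarith
    have hup : ∀ k, p ((((p (w k))⁻¹ : ℝ) : 𝕜) • w k + (r : 𝕜) • x) ≤ 2 := by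
      intro k
      refine (map_add_le_add p _ _).trans ?_
      rw [hA, hB]
      norm_num
    have hl : Tendsto (fun k => r * p (w k + x) - |1 - r * p (w k)|) atTop (𝓝 2) := by
      have := (h2'.const_mul r).sub herr
      rw [show r * (2 * p x) - 0 = 2 * (r * p x) by ring, hx1, mul_one] at this
      exact this
    exact tendsto_of_tendsto_of_tendsto_of_le_of_le hl tendsto_const_nhds hlow hup)
  have hfin : Tendsto (fun k => p ((((p (w k))⁻¹ : ℝ) : 𝕜) • w k - (r : 𝕜) • x) +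
      |1 - r * p (w k)|) atTop (𝓝 0) := by
    have := hlim.add herr
    rwa [add_zero] at this
  have hge : ∀ k, r * c ≤ p ((((p (w k))⁻¹ : ℝ) : 𝕜) • w k - (r : 𝕜) • x) +
      |1 - r * p (w k)| := by
    intro k
    have h7 : p ((r : 𝕜) • (w k - x)) ≤ p ((((p (w k))⁻¹ : ℝ) : 𝕜) • w k - (r : 𝕜) • x) +
        p ((((p (w k))⁻¹ : ℝ) : 𝕜) • w k - (r : 𝕜) • w k) := by
      have h6 : (r : 𝕜) • (w k - x) = ((((p (w k))⁻¹ : ℝ) : 𝕜) • w k - (r : 𝕜) • x) -
          ((((p (w k))⁻¹ : ℝ) : 𝕜) • w k - (r : 𝕜) • w k) := by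
        rw [smul_sub]; abel
      rw [h6]
      exact map_sub_le_add p _ _
    rw [hsm _ _ hrpos.le, hdiff] at h7
    have h8 := hz (k + K)
    have h9 : r * c ≤ r * p (w k - x) := mul_le_mul_of_nonneg_left h8 hrpos.le
    linarith
  have := ge_of_tendsto' hfin hge
  nlinarith

end Pool.Agent.U565.LUR.Ell
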